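import Pool.Agent.H38.AG.All
import Pool.Agent.H82.AS.All2
import Pool.Agent.H82.AS.TailGlue

/-!
# The height of 100 percent of all admissible triples ordered by radical (MP_7ecdd4_nt, n = 3)

Every admissible triple has `rad ^ (1 / 3) ≤ max |x i|`. For `lam ≥ 1` and every `θ < 1` at most
`C (lam ^ (-θ) + X ^ (-δ)) X ^ (2 / 3)` admissible triples, of any height, whose product has radical
at most `X` have `max |x i| > lam rad ^ (1 / 3)`, and at least `c lam ^ (-1) X ^ (2 / 3)` if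
`3 lam ≤ X ^ (1 / 6)`. For `1 / 3 ≤ M ≤ 1 / 3 + δ` the number of those with `max |x i| > rad ^ M` is
between `c X ^ (1 - M)` and `C X ^ (1 - M + ε)`; for `M > 1 / 3` it is at most `C X ^ (2 / 3 - δ)`.
-/

set_option autoImplicit false

namespace Pool.Agent.Results.MP_7ecdd4_nt.AlmostAllTriples

open Pool.Agent.H38.AE.Statement Pool.Agent.H38.AG Pool.Agent.H82.AS

/-- The height of 100 percent of all admissible triples ordered by radical. -/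
theorem result :
    ((∀ x : Fin 3 → ℤ, Admissible x →
      ∃ i, (radical (∏ i, x i) : ℝ) ^ (1 / 3 : ℝ) ≤ |(x i : ℝ)|) ∧
    (∀ ε : ℝ, 0 < ε → ∃ δ C : ℝ, 0 < δ ∧ 0 < C ∧
      (∀ X : ℝ, 1 ≤ X → (Violators (1 / 3 + ε) X).Finite ∧
        ((Violators (1 / 3 + ε) X).ncard : ℝ) ≤ C * X ^ (2 / 3 - δ)) ∧
      ∀ X : ℝ, 2 ≤ X →
        ((Violators (1 / 3 + ε) X).ncard : ℝ) ≤ C * X ^ (-δ) * (All X).ncard) ∧
    (∃ c : ℝ, 0 < c ∧ ∀ X : ℝ, 2 ≤ X → (All X).Finite ∧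
      c * X ^ (2 / 3 : ℝ) ≤ ((All X).ncard : ℝ))) ∧
    (∃ δ : ℝ, 0 < δ ∧ ∀ θ : ℝ, 0 ≤ θ → θ < 1 → ∃ C : ℝ, 0 < C ∧ ∀ X lam : ℝ, 1 ≤ X → 1 ≤ lam →
      (Tail X lam).Finite ∧
      ((Tail X lam).ncard : ℝ) ≤ C * (lam ^ (-θ) + X ^ (-δ)) * X ^ (2 / 3 : ℝ)) ∧
    (∃ c : ℝ, 0 < c ∧ ∀ X lam : ℝ, 1 ≤ X → 1 ≤ lam → 3 * lam ≤ X ^ (1 / 6 : ℝ) →
      c * lam⁻¹ * X ^ (2 / 3 : ℝ) ≤ ((Tail X lam).ncard : ℝ)) ∧
    (∃ δ c : ℝ, 0 < δ ∧ 0 < c ∧ ∀ M : ℝ, 1 / 3 ≤ M → M ≤ 1 / 3 + δ →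
      (∀ X : ℝ, 2 ≤ X → c * X ^ (1 - M) ≤ ((Violators M X).ncard : ℝ)) ∧
      ∀ ε : ℝ, 0 < ε → ∃ C : ℝ, 0 < C ∧ ∀ X : ℝ, 1 ≤ X → (Violators M X).Finite ∧
        ((Violators M X).ncard : ℝ) ≤ C * X ^ (1 - M + ε)) :=
  ⟨glue gpl Pool.Agent.H82.RD.tfi Pool.Agent.H89.PS.pf_LOWC, tailGlue til ltl⟩

end Pool.Agent.Results.MP_7ecdd4_nt.AlmostAllTriples
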