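import Pool.Agent.H71.EQ.Low

/-!
# Equidistribution of the admissible `n`-tuples ordered by radical (MP_7ecdd4_nt, all `n ≥ 3`)

`n = k + 1`.  The points `x / rad ^ (1 / n)`, `x` an admissible `n`-tuple (in the range of heights
of `InRange` if `n ≥ 4`) whose product has radical `rad ≤ X`, are equidistributed with respect to an
explicit finite measure `limitMeasure k` on `ℝ ^ n`, with a power saving for Lipschitz functions
and for the distribution function of `max |x i| / rad ^ (1 / n)`.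
-/

set_option autoImplicit false

namespace Pool.Agent.Results.MP_7ecdd4_nt.Equidistribution

open Pool.Agent.H38.AE.Statement Pool.Agent.H38.AT Pool.Agent.H71.EQ MeasureTheory Filter
open scoped Topology

/-- Equidistribution of the admissible `n`-tuples ordered by radical, `n = k + 1`. -/
theorem result (k : ℕ) (hk : 2 ≤ k) :
    (∀ x : Fin (k + 1) → ℤ, Admissible x → (rd x : ℝ) ^ nu k ≤ (height x : ℝ)) ∧
    (IsFiniteMeasure (limitMeasure k) ∧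
      (∀ E : ℕ, 1 ≤ E → Multipliable fun p : Nat.Primes => wloc (k + 1) p (E.factorization p)) ∧
      ∃ κ : ℝ, 0 < κ ∧ 0 < volume.real {z : Fin k → ℝ | PR z ≤ 1} ∧
        HasProd (fun p : Nat.Primes => (cnt (k + 1) p + ((k : ℝ) + 1) * cnt k p *
          ∑ j ∈ Finset.range (k + 1), ((p : ℕ) : ℝ) ^ (-((j : ℝ) * nu k))) /
            ((p : ℕ) : ℝ) ^ k) κ ∧
        (limitMeasure k).real Set.univ = volume.real {z : Fin k → ℝ | PR z ≤ 1} * κ) ∧
    ∀ ε : ℝ, 0 < ε → ε < 1 → ∃ ρ δ C : ℝ, 0 < ρ ∧ 0 < δ ∧ 0 < C ∧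
      (∀ X : ℝ, 3 ≤ X → (Tuples k ε ρ X).Finite) ∧
      (∀ (X B L : ℝ) (f : (Fin (k + 1) → ℝ) → ℝ), 3 ≤ X → (∀ y, |f y| ≤ B) →
        (∀ y z, |f y - f z| ≤ L * ‖y - z‖) →
        |∑ᶠ x ∈ Tuples k ε ρ X, f (nrm x) - X ^ (1 - nu k) * ∫ y, f y ∂(limitMeasure k)| ≤
          C * (B + L) * X ^ (1 - nu k - δ)) ∧
      (∀ X t : ℝ, 3 ≤ X →
        |(({x | x ∈ Tuples k ε ρ X ∧ (height x : ℝ) ≤ t * (rd x : ℝ) ^ nu k}.ncard : ℕ) : ℝ) -
          X ^ (1 - nu k) * (limitMeasure k).real {y | ∀ i, |y i| ≤ t}| ≤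
          C * X ^ (1 - nu k - δ)) ∧
      (∀ e : ℝ, 0 < e → ∃ δ' C' : ℝ, 0 < δ' ∧ 0 < C' ∧ ∀ X : ℝ, 3 ≤ X →
        (({x | x ∈ Tuples k ε ρ X ∧ (rd x : ℝ) ^ (nu k + e) < (height x : ℝ)}.ncard : ℕ) : ℝ) ≤
          C' * X ^ (1 - nu k - δ')) ∧
      (∀ A : Set (Fin (k + 1) → ℝ), limitMeasure k (frontier A) = 0 →
        Tendsto (fun X : ℝ => X ^ (-(1 - nu k)) *
          (({x | x ∈ Tuples k ε ρ X ∧ nrm x ∈ A}.ncard : ℕ) : ℝ)) atTop
          (𝓝 ((limitMeasure k).real A))) :=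
  ⟨fun x hx => Pool.Agent.H71.EQ.low k hk x hx, mass_core mea prd kap k hk,
    fun ε hε hε1 => Pool.Agent.H71.EQQ.main' k hk ε hε hε1⟩

end Pool.Agent.Results.MP_7ecdd4_nt.Equidistribution
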