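import Pool.Agent.H82.RD.All4
import Pool.Agent.H82.AS.All
import Pool.Agent.H82.AS.Glue
import Pool.Agent.H38.UE.Corr

/-!
# The distribution of the radicals of all admissible triples (MP_7ecdd4_nt, n = 3)

The number of all admissible triples, of any height, whose product has radical at most `X` is
`kappa X ^ (2 / 3) + O(X ^ (2 / 3 - c))`. For every `ε > 0` the number of those with
`rad (x i) = s` and with radical of the product of the two other entries at most `R` is at most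
`C (s R) ^ ε R ^ (1 / 2)`, and for squarefree `s`, `R ≥ 4 s ^ 2`, at least
`c s ^ (-ε) R ^ (1 / 2)`. The set of the triples composed of the prime divisors of `N` has an
explicit limit law and finite moments, with error terms; few `N` have a triple of large radical.
-/

set_option autoImplicit false

namespace Pool.Agent.Results.MP_7ecdd4_nt.RadicalsOfTriples

open Pool.Agent.H82.RD Pool.Agent.H82.AS Pool.Agent.H38.UE Pool.Agent.H38.AE.Statement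

/-- The radicals of the admissible triples, of any height. -/
theorem result :
    ((Multipliable fun p : Nat.Primes => localFactor p) ∧ 0 < kappa ∧
      ∃ c C : ℝ, 0 < c ∧ 0 < C ∧ ∀ X : ℝ, 1 ≤ X → (ByRadical X).Finite ∧
        |((ByRadical X).ncard : ℝ) - kappa * X ^ (2 / 3 : ℝ)| ≤ C * X ^ (2 / 3 - c)) ∧
    (∀ ε : ℝ, 0 < ε → ∃ C : ℝ, 0 < C ∧ ∀ (i : Fin 3) (s : ℕ) (R : ℝ), 1 ≤ s → 1 ≤ R →
      (WithEntry i s R).Finite ∧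
      ((WithEntry i s R).ncard : ℝ) ≤ C * (s * R) ^ ε * R ^ (1 / 2 : ℝ)) ∧
    (∀ ε : ℝ, 0 < ε → ∃ c : ℝ, 0 < c ∧ ∀ (i : Fin 3) (s : ℕ) (R : ℝ), Squarefree s →
      4 * (s : ℝ) ^ 2 ≤ R →
      c * (s : ℝ) ^ (-ε) * R ^ (1 / 2 : ℝ) ≤ ((WithEntry i s R).ncard : ℝ)) ∧
    (∀ N : ℕ, 1 ≤ N → (Solutions N).Finite) ∧
    ∃ w : Set (Fin 3 → ℤ) → ℝ, (∀ S, 0 ≤ w S) ∧ HasSum w 1 ∧
      (∀ F : Finset (Fin 3 → ℤ), (∀ x ∈ F, Admissible x) →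
        ∑' S, ({S : Set (Fin 3 → ℤ) | ↑F ⊆ S}).indicator w S =
          1 / (radical (∏ x ∈ F, ∏ i, x i) : ℝ)) ∧
      (∃ C : ℝ, 0 < C ∧ ∀ (𝒮 : Set (Set (Fin 3 → ℤ))) (X : ℝ), 1 ≤ X →
        |(Count 𝒮 X : ℝ) - X * ∑' S, 𝒮.indicator w S| ≤
          C * X * Real.exp (-(1 / 3 * Real.sqrt (Real.log X)))) ∧
      (∃ c C : ℝ, 0 < c ∧ 0 < C ∧ ∀ X : ℝ, 1 ≤ X →
        |∑ N ∈ Finset.Icc 1 ⌊X⌋₊, ((Solutions N).ncard : ℝ) - X * ∑' S, w S * (S.ncard : ℝ) -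
          kappa * (riemannZeta ((2 / 3 : ℝ) : ℂ)).re * X ^ (2 / 3 : ℝ)| ≤ C * X ^ (2 / 3 - c)) ∧
      (∀ k : ℕ, 1 ≤ k → Summable (fun S => w S * (S.ncard : ℝ) ^ k) ∧
        ∀ ε : ℝ, 0 < ε → ∃ C : ℝ, 0 < C ∧ ∀ X : ℝ, 1 ≤ X →
          |∑ N ∈ Finset.Icc 1 ⌊X⌋₊, ((Solutions N).ncard : ℝ) ^ k -
            X * ∑' S, w S * (S.ncard : ℝ) ^ k| ≤ C * X ^ (1 - 1 / (2 * k + 1) + ε : ℝ)) ∧
      (∃ C : ℝ, 0 < C ∧ ∀ X Y : ℝ, 1 ≤ X → 1 ≤ Y →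
        (Count {S | ∃ x ∈ S, Y ≤ (radical (∏ i, x i) : ℝ)} X : ℝ) ≤
          C * X * Y ^ (-(1 / 3) : ℝ)) := by
  have h := glue fin4 low4 tfi Pool.Agent.H89.PS.pf_LOWC
  exact ⟨glueA asy eul ari Pool.Agent.H50.AS.pf_BET Pool.Agent.H89.PS.pf_LOWC, h.2.2.1, h.2.2.2,
    final2⟩

end Pool.Agent.Results.MP_7ecdd4_nt.RadicalsOfTriples
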