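import Pool.Agent.H38.AE.Statement
import Pool.Agent.H23.AF.All
import Pool.Agent.H29.TFX.AllQ
import Pool.Agent.H29.TFX.NF

/-!
# How many triples violate the exponent `M`?

Admissible triples: non-zero pairwise coprime integers `x 0`, `x 1`, `x 2` with sum `0`; `rad` is
the radical of `x 0 * x 1 * x 2`. All clauses count the admissible triples which violate
`max |x i| ≤ rad ^ M`.

* (a) For large `M` at most `C * N ^ ((1 / 3 + ε) / M)` triples of height at most `N` violate the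
  exponent `M`. The trivial exponent is `2 / 3` instead of `1 / 3`.
* (b) At most `C * N ^ ε * R ^ (4 / 7)` triples of height at most `N` have `rad ≤ R` and
  `rad < max |x i|`; so at most `C * N ^ (4 / (7 * M) + ε)` triples of height at most `N` violate
  the exponent `M ≥ 1`, uniformly in `M`.
* (c) At most `C * X ^ ε` triples with `rad ≤ X` and `X ^ M < max |x i| ≤ exp (X ^ c)` have at
  most `k` distinct exponents in the factorization of `x 0 * x 1 * x 2`, where `M` and `c` depend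
  only on `k` and `ε`.
* (d) At most `C * X ^ (θ + ε)` triples with `rad ≤ X` and `X ^ M < max |x i| ≤ X ^ A` have two
  entries whose product has at most `k` distinct exponents outside the primes dividing some
  `Q ≤ X ^ θ`, where `M` depends only on `k` and `ε`.
-/

set_option autoImplicit false

namespace Pool.Agent.Results.MP_7ecdd4_nt.ViolatingTriples

open Pool.Agent.H38.AE Pool.Agent.H38.AE.Statement

/-- The admissible triples with all entries at most `N` in absolute value, whose radical is at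
most `R` and smaller than some entry. -/
def SmallRadical (N : ℕ) (R : ℝ) : Set (Fin 3 → ℤ) :=
  {x | Admissible x ∧ (∀ i, |x i| ≤ (N : ℤ)) ∧ (radical (∏ i, x i) : ℝ) ≤ R ∧
    ∃ i, (radical (∏ i, x i) : ℝ) < |(x i : ℝ)|}

/-- The exponents, in the factorization of `m`, of the primes not dividing `Q`. -/
def exponents (Q : ℕ) (m : ℤ) : Finset ℕ :=
  (m.natAbs.primeFactors.filter fun p => ¬ p ∣ Q).image fun p => m.natAbs.factorization p

/-- The admissible triples whose product has radical at most `X`, with largest entry between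
`X ^ M` and `H`, such that outside the primes dividing some integer `Q ≤ R` the product of the
entries `x i`, `i ∈ I`, has at most `k` distinct exponents. -/
def FewExponents (I : Finset (Fin 3)) (k : ℕ) (M R X H : ℝ) : Set (Fin 3 → ℤ) :=
  {x | Admissible x ∧ (radical (∏ i, x i) : ℝ) ≤ X ∧ (∃ i, X ^ M < |(x i : ℝ)|) ∧
    (∀ i, |(x i : ℝ)| ≤ H) ∧
    ∃ Q : ℕ, 1 ≤ Q ∧ (Q : ℝ) ≤ R ∧ (exponents Q (∏ i ∈ I, x i)).card ≤ k}

theorem finite_of_height (N : ℕ) (S : Set (Fin 3 → ℤ)) (h : ∀ x ∈ S, ∀ i, |x i| ≤ (N : ℤ)) :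
    S.Finite := by
  apply Set.Finite.subset (Set.Finite.pi' (fun _ : Fin 3 => Set.finite_Icc (-(N : ℤ)) N))
  intro x hx i
  exact abs_le.mp (h x hx i)

theorem small_le (N : ℕ) (R : ℝ) :
    (SmallRadical N R).ncard ≤ (Pool.Agent.H23.AF.Sm N R).ncard := by
  apply Set.ncard_le_ncard_of_injOn (fun x : Fin 3 → ℤ => (x 0, x 1, x 2)) _ _
    ((Pool.Agent.H31.AE.tri_finite N).subset fun t ht => ht.1)
  · rintro x ⟨⟨h0, hc, hs⟩, hb, hR, i, hi⟩
    rw [Fin.sum_univ_three] at hs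
    rw [Fin.prod_univ_three] at hi hR
    refine ⟨⟨h0 0, h0 1, h0 2, hc 0 1 (by decide), hc 0 2 (by decide), hc 1 2 (by decide), hs,
      hb 0, hb 1, hb 2⟩, hR, ?_⟩
    show (rad (x 0 * x 1 * x 2).natAbs : ℝ) < ((max |x 0| (max |x 1| |x 2|) : ℤ) : ℝ)
    have hle : |x i| ≤ max |x 0| (max |x 1| |x 2|) := by
      fin_cases i
      · exact le_max_left _ _
      · exact (le_max_left _ _).trans (le_max_right _ _)
      · exact (le_max_right _ _).trans (le_max_right _ _)
    have hle' : |(x i : ℝ)| ≤ ((max |x 0| (max |x 1| |x 2|) : ℤ) : ℝ) := by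
      rw [← Int.cast_abs]
      exact_mod_cast hle
    exact lt_of_lt_of_le hi hle'
  · intro x _ y _ hxy
    simp only [Prod.mk.injEq] at hxy
    funext i
    fin_cases i
    · exact hxy.1
    · exact hxy.2.1
    · exact hxy.2.2

theorem exceptional_sub (M : ℝ) (hM : 1 ≤ M) (N : ℕ) :
    Exceptional 3 M N ⊆ SmallRadical N ((N : ℝ) ^ (1 / M)) := by
  rintro x ⟨hx, hb, i, hi⟩
  have hM0 : 0 < M := by linarith
  have hr1 : (1 : ℝ) ≤ (radical (∏ i, x i) : ℝ) := by
    have : 0 < radical (∏ i, x i) :=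
      Finset.prod_pos fun p hp => (Nat.prime_of_mem_primeFactors hp).pos
    exact_mod_cast this
  have hbi : |(x i : ℝ)| ≤ N := by
    rw [← Int.cast_abs]
    exact_mod_cast hb i
  refine ⟨hx, hb, ?_, i, ?_⟩
  · have h1 : ((radical (∏ i, x i) : ℝ) ^ M) ^ (1 / M) ≤ (N : ℝ) ^ (1 / M) :=
      Real.rpow_le_rpow (by positivity) (hi.le.trans hbi) (by positivity)
    rwa [← Real.rpow_mul (by linarith), mul_one_div_cancel hM0.ne', Real.rpow_one] at h1
  · refine lt_of_le_of_lt ?_ hi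
    calc (radical (∏ i, x i) : ℝ) = (radical (∏ i, x i) : ℝ) ^ (1 : ℝ) := (Real.rpow_one _).symm
      _ ≤ (radical (∏ i, x i) : ℝ) ^ M := Real.rpow_le_rpow_of_exponent_le hr1 hM

theorem all_exponents (ε : ℝ) (hε : 0 < ε) : ∃ C : ℝ, 0 < C ∧ ∀ N : ℕ, 1 ≤ N →
    (∀ R : ℝ, 1 ≤ R → (SmallRadical N R).Finite ∧
      ((SmallRadical N R).ncard : ℝ) ≤ C * ((N : ℝ) ^ ε * R ^ ((4 : ℝ) / 7))) ∧
    (∀ M : ℝ, 1 ≤ M → (Exceptional 3 M N).Finite ∧
      ((Exceptional 3 M N).ncard : ℝ) ≤ C * (N : ℝ) ^ (4 / (7 * M) + ε)) := by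
  obtain ⟨C, hC, h⟩ := Pool.Agent.H23.AF.pf_all ε hε
  refine ⟨C, hC, fun N hN => ?_⟩
  have hN0 : (0 : ℝ) < N := by exact_mod_cast hN
  have hN1 : (1 : ℝ) ≤ N := by exact_mod_cast hN
  have key : ∀ R : ℝ, 1 ≤ R → (SmallRadical N R).Finite ∧
      ((SmallRadical N R).ncard : ℝ) ≤ C * ((N : ℝ) ^ ε * R ^ ((4 : ℝ) / 7)) := by
    intro R hR
    refine ⟨finite_of_height N _ fun x hx => hx.2.1, ?_⟩
    have h1 : ((SmallRadical N R).ncard : ℝ) ≤ ((Pool.Agent.H23.AF.Sm N R).ncard : ℝ) := by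
      exact_mod_cast small_le N R
    exact h1.trans (h N R hN hR)
  refine ⟨key, fun M hM => ⟨finite_of_height N _ fun x hx => hx.2.1, ?_⟩⟩
  have hM0 : 0 < M := by linarith
  obtain ⟨hf, hk⟩ := key ((N : ℝ) ^ (1 / M)) (Real.one_le_rpow hN1 (by positivity))
  have h1 : ((Exceptional 3 M N).ncard : ℝ) ≤
      ((SmallRadical N ((N : ℝ) ^ (1 / M))).ncard : ℝ) := by
    exact_mod_cast Set.ncard_le_ncard (exceptional_sub M hM N) hf
  refine (h1.trans hk).trans (le_of_eq ?_)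
  rw [← Real.rpow_mul hN0.le, ← Real.rpow_add hN0]
  congr 2
  field_simp
  ring

theorem two_entries (k : ℕ) (ε : ℝ) (hε : 0 < ε) : ∃ M : ℝ, 0 < M ∧ ∀ A θ : ℝ, 0 ≤ θ →
    ∃ C : ℝ, 0 < C ∧ ∀ (X : ℝ) (a : Fin 3), 2 ≤ X →
      (FewExponents (Finset.univ.erase a) k M (X ^ θ) X (X ^ A)).Finite ∧
        ((FewExponents (Finset.univ.erase a) k M (X ^ θ) X (X ^ A)).ncard : ℝ) ≤
          C * X ^ (θ + ε) := by
  obtain ⟨M, hM, h⟩ := Pool.Agent.H29.TFX.all_TPL k ε hε
  refine ⟨M, hM, fun A θ hθ => ?_⟩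
  obtain ⟨C, hC, h⟩ := h A θ hθ
  refine ⟨C, hC, fun X a hX => ?_⟩
  obtain ⟨hf, hc⟩ := h X hX
  have hsub : FewExponents (Finset.univ.erase a) k M (X ^ θ) X (X ^ A) ⊆
      Pool.Agent.H26.QQ.TwoFew k M (X ^ θ) X (X ^ A) := by
    rintro x ⟨h1, h2, h3, h4, Q, h5, h6, h7⟩
    exact ⟨h1, h2, h3, h4, a, Q, h5, h6, h7⟩
  refine ⟨hf.subset hsub, le_trans ?_ hc⟩
  exact_mod_cast Set.ncard_le_ncard hsub hf

/-- (a) For every `ε > 0` there is `M₀` such that for every `M ≥ M₀` there is `C` such that for all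
`N ≥ 1` at most `C N ^ ((1 / 3 + ε) / M)` admissible triples of height at most `N` have some entry
larger than the `M`-th power of the radical. (b) For every `ε > 0` there is `C` such that for all
`N ≥ 1`, `R ≥ 1`, `M ≥ 1` at most `C N ^ ε R ^ (4 / 7)` admissible triples of height at most `N`
have a radical that is at most `R` and smaller than some entry, and at most
`C N ^ (4 / (7 M) + ε)` of them have some entry larger than the `M`-th power of the radical.
(c) For all `k` and `ε > 0` there are `M, c, C > 0` such that for all `X ≥ 2` at most `C X ^ ε`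
admissible triples with radical at most `X` and largest entry between `X ^ M` and `exp (X ^ c)`
have at most `k` distinct exponents in the factorization of the product. (d) For all `k` and
`ε > 0` there is `M > 0` such that for all `A` and `θ ≥ 0` there is `C` such that for all `X ≥ 2`
and every `a` at most `C X ^ (θ + ε)` admissible triples with radical at most `X` and largest
entry between `X ^ M` and `X ^ A` have in the product of the two entries different from `x a` at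
most `k` distinct exponents outside the primes dividing some `Q ≤ X ^ θ`. -/
theorem result :
    (∀ ε : ℝ, 0 < ε → ∃ M₀ : ℝ, 0 < M₀ ∧ ∀ M : ℝ, M₀ ≤ M → ∃ C : ℝ, 0 < C ∧
      ∀ N : ℕ, 1 ≤ N → (Exceptional 3 M N).Finite ∧
        ((Exceptional 3 M N).ncard : ℝ) ≤ C * (N : ℝ) ^ ((1 / 3 + ε) / M)) ∧
    (∀ ε : ℝ, 0 < ε → ∃ C : ℝ, 0 < C ∧ ∀ N : ℕ, 1 ≤ N →
      (∀ R : ℝ, 1 ≤ R → (SmallRadical N R).Finite ∧
        ((SmallRadical N R).ncard : ℝ) ≤ C * ((N : ℝ) ^ ε * R ^ ((4 : ℝ) / 7))) ∧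
      (∀ M : ℝ, 1 ≤ M → (Exceptional 3 M N).Finite ∧
        ((Exceptional 3 M N).ncard : ℝ) ≤ C * (N : ℝ) ^ (4 / (7 * M) + ε))) ∧
    (∀ (k : ℕ) (ε : ℝ), 0 < ε → ∃ M c C : ℝ, 0 < M ∧ 0 < c ∧ 0 < C ∧ ∀ X : ℝ, 2 ≤ X →
      (FewExponents Finset.univ k M 1 X (Real.exp (X ^ c))).Finite ∧
        ((FewExponents Finset.univ k M 1 X (Real.exp (X ^ c))).ncard : ℝ) ≤ C * X ^ ε) ∧
    (∀ (k : ℕ) (ε : ℝ), 0 < ε → ∃ M : ℝ, 0 < M ∧ ∀ A θ : ℝ, 0 ≤ θ → ∃ C : ℝ, 0 < C ∧
      ∀ (X : ℝ) (a : Fin 3), 2 ≤ X →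
        (FewExponents (Finset.univ.erase a) k M (X ^ θ) X (X ^ A)).Finite ∧
          ((FewExponents (Finset.univ.erase a) k M (X ^ θ) X (X ^ A)).ncard : ℝ) ≤
            C * X ^ (θ + ε)) :=
  ⟨Pool.Agent.H29.TFX.NF_main (1 / 3) (by norm_num) Pool.Agent.H29.TFX.all_EXB,
    all_exponents, Pool.Agent.H29.TFX.all_FNB, two_entries⟩

end Pool.Agent.Results.MP_7ecdd4_nt.ViolatingTriples
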